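import Mathlib
import Pool.Agent.Lib.H98.ProdIndep
import Pool.Agent.Lib.Pea7c0e.Model
import Pool.Agent.Lib.Pea7c0e.Basic

open MeasureTheory Set
open scoped unitInterval ENNReal

namespace Pool.Agent.Results.MP_ea7c0e_pr.Main

open Pool.Agent.Lib.H98 Pool.Agent.Lib.Pea7c0e

variable {d k : ℕ}

/-! ## Survival -/

/-- Put `b` in front of the pattern `τ`. -/
def consB (b : Bool) (τ : ℕ → Bool) : ℕ → Bool
  | 0 => b
  | n + 1 => τ n

/-- The event that the long edge with terminal vertex `w` is open. -/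
def longInto (q : ℝ) (w : List (Fin d)) : Set (Edge d k → I) :=
  ⋃ (u : List (Fin d)) (x : Fin k → Fin d) (_ : w = List.ofFn x ++ u), lab q (Sum.inr (u, x))

/-- The event that `i :: v` is reached, when `τ` describes which of the vertices `v` (index `0`),
parent of `v` (index `1`), … are reached. -/
def bev (p q : ℝ) (τ : ℕ → Bool) (v : List (Fin d)) (i : Fin d) : Set (Edge d k → I) :=
  {ω | (τ 0 = true ∧ ω ∈ lab p (Sum.inl (v, i))) ∨ (τ (k - 1) = true ∧ ω ∈ longInto q (i :: v))}

/-- Survival up to depth `n` below `v`, with pattern `τ` at `v`. -/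
def Surv (p q : ℝ) : ℕ → (ℕ → Bool) → List (Fin d) → Set (Edge d k → I)
  | 0, τ, _ => {_ω | ∃ j < k, τ j = true}
  | n + 1, τ, v => ⋃ i : Fin d, (bev p q τ v i ∩ Surv p q n (consB true τ) (i :: v)) ∪
      ((bev p q τ v i)ᶜ ∩ Surv p q n (consB false τ) (i :: v))

lemma longInto_eq {q : ℝ} {w u : List (Fin d)} {x : Fin k → Fin d} (h : w = List.ofFn x ++ u) :
    (longInto q w : Set (Edge d k → I)) = lab q (Sum.inr (u, x)) := by
  unfold longInto
  ext ω
  simp only [mem_iUnion]
  constructor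
  · rintro ⟨u', x', hx', h'⟩
    obtain ⟨h3, rfl⟩ : List.ofFn x = List.ofFn x' ∧ u = u' :=
      List.append_inj (h.symm.trans hx') (by simp)
    have h4 : x = x' := List.ofFn_injective h3
    subst h4
    exact h'
  · intro h'
    exact ⟨u, x, h, h'⟩

lemma measurableSet_longInto (q : ℝ) (w : List (Fin d)) :
    MeasurableSet (longInto q w : Set (Edge d k → I)) :=
  MeasurableSet.iUnion fun _ => MeasurableSet.iUnion fun _ => MeasurableSet.iUnion fun _ =>
    measurableSet_lab _ _

lemma depOn_longInto (q : ℝ) (w : List (Fin d)) :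
    DepOn (longInto q w : Set (Edge d k → I)) {e | tgt e = w ∧ ∃ y, e = Sum.inr y} := by
  refine DepOn.iUnion fun u => DepOn.iUnion fun x => DepOn.iUnion fun h =>
    (depOn_lab _ _).mono ?_
  rintro e rfl
  exact ⟨h.symm, _, rfl⟩

lemma measurableSet_bev (p q : ℝ) (τ : ℕ → Bool) (v : List (Fin d)) (i : Fin d) :
    MeasurableSet (bev p q τ v i : Set (Edge d k → I)) := by
  unfold bev
  by_cases h0 : τ 0 = true <;> by_cases h1 : τ (k - 1) = true <;> simp only [h0, h1, true_and,
    false_and, or_false, false_or, Bool.false_eq_true, Set.ofPred_false]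
  · exact (measurableSet_lab _ _).union (measurableSet_longInto _ _)
  · exact measurableSet_lab _ _
  · exact measurableSet_longInto _ _
  · exact MeasurableSet.empty

lemma depOn_bev (p q : ℝ) (τ : ℕ → Bool) (v : List (Fin d)) (i : Fin d) :
    DepOn (bev p q τ v i : Set (Edge d k → I)) {e | tgt e = i :: v} := by
  intro ω ω' h hω
  have h1 : DepOn (lab p (Sum.inl (v, i)) : Set (Edge d k → I)) {e | tgt e = i :: v} :=
    (depOn_lab _ _).mono (by rintro e rfl; rfl)
  have h2 : DepOn (longInto q (i :: v) : Set (Edge d k → I)) {e | tgt e = i :: v} :=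
    (depOn_longInto _ _).mono fun e he => he.1
  exact hω.imp (fun h3 => ⟨h3.1, h1 ω ω' h h3.2⟩) (fun h3 => ⟨h3.1, h2 ω ω' h h3.2⟩)

/-- `0/1` values of a pattern. -/
def ind (τ : ℕ → Bool) (n : ℕ) : ℝ := if τ n then 1 else 0

lemma ind_nonneg (τ : ℕ → Bool) (n : ℕ) : 0 ≤ ind τ n := by unfold ind; split_ifs <;> norm_num

lemma ind_le_one (τ : ℕ → Bool) (n : ℕ) : ind τ n ≤ 1 := by unfold ind; split_ifs <;> norm_num

lemma ind_consB_true (τ : ℕ → Bool) : ind (consB true τ) = consR 1 (ind τ) := by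
  ext n; rcases n with _ | n
  · simp [ind, consB, consR]
  · rfl

lemma ind_consB_false (τ : ℕ → Bool) : ind (consB false τ) = consR 0 (ind τ) := by
  ext n; rcases n with _ | n
  · simp [ind, consB, consR]
  · rfl

lemma measure_bev {p q : ℝ} (hk : 0 < k) (hp0 : 0 ≤ p) (hp1 : p ≤ 1) (hq0 : 0 ≤ q) (hq1 : q ≤ 1)
    {τ : ℕ → Bool} {v : List (Fin d)} (hτ : ∀ j < k, τ j = true → j ≤ v.length) (i : Fin d) :
    (perc d k).real (bev p q τ v i) =
      p * ind τ 0 + q * ind τ (k - 1) - p * q * ind τ 0 * ind τ (k - 1) := by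
  have hlong : τ (k - 1) = true →
      (perc d k).real (longInto q (i :: v)) = q := by
    intro h1
    have h2 := hτ (k - 1) (by omega) h1
    obtain ⟨x, hx⟩ := exists_ofFn (n := k) ((i :: v).take k) (by
      rw [List.length_take, List.length_cons]; omega)
    have hx' : i :: v = List.ofFn x ++ (i :: v).drop k := by
      rw [hx]; exact (List.take_append_drop k _).symm
    rw [longInto_eq hx', measure_lab hq0 hq1]
  unfold bev ind
  by_cases h0 : τ 0 = true <;> by_cases h1 : τ (k - 1) = true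
  · simp only [h0, h1, true_and, if_true, mul_one]
    have h2 : (perc d k).real (lab p (Sum.inl (v, i)) ∩ longInto q (i :: v)) = p * q := by
      rw [perc_inter (measurableSet_lab _ _) (measurableSet_longInto _ _) (depOn_lab _ _)
        (depOn_longInto _ _) ?_, measure_lab hp0 hp1, hlong h1]
      rw [Set.disjoint_left]
      rintro e rfl ⟨-, y, hy⟩
      simp at hy
    have h3 := measureReal_union_add_inter (μ := perc d k) (s := lab p (Sum.inl (v, i)))
      (measurableSet_longInto (k := k) q (i :: v))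
    rw [h2, measure_lab hp0 hp1, hlong h1] at h3
    have h4 : {ω : Edge d k → I | ω ∈ lab p (Sum.inl (v, i)) ∨ ω ∈ longInto q (i :: v)} =
      lab p (Sum.inl (v, i)) ∪ longInto q (i :: v) := rfl
    rw [h4]
    linarith
  · simp only [h0, h1, true_and, false_and, or_false, if_true, Bool.false_eq_true, if_false]
    have h4 : {ω : Edge d k → I | ω ∈ lab p (Sum.inl (v, i))} = lab p (Sum.inl (v, i)) := rfl
    rw [h4, measure_lab hp0 hp1]
    ring
  · simp only [h0, h1, true_and, false_and, false_or, if_true, Bool.false_eq_true, if_false]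
    have h4 : {ω : Edge d k → I | ω ∈ longInto q (i :: v)} = longInto q (i :: v) := rfl
    rw [h4, hlong h1]
    ring
  · simp only [h0, h1, false_and, or_false, Bool.false_eq_true, if_false]
    have h4 : {ω : Edge d k → I | False} = ∅ := by ext; simp
    rw [h4]
    simp

lemma measurableSet_Surv (p q : ℝ) (n : ℕ) (τ : ℕ → Bool) (v : List (Fin d)) :
    MeasurableSet (Surv p q n τ v : Set (Edge d k → I)) := by
  induction n generalizing τ v with
  | zero => exact MeasurableSet.const _
  | succ n ih =>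
    refine MeasurableSet.iUnion fun i => MeasurableSet.union ?_ ?_
    · exact (measurableSet_bev _ _ _ _ _).inter (ih _ _)
    · exact (measurableSet_bev _ _ _ _ _).compl.inter (ih _ _)

lemma depOn_Surv (p q : ℝ) (n : ℕ) (τ : ℕ → Bool) (v : List (Fin d)) :
    DepOn (Surv p q n τ v : Set (Edge d k → I)) {e | v <:+ tgt e ∧ v.length < (tgt e).length} := by
  induction n generalizing τ v with
  | zero => intro ω ω' _ h; exact h
  | succ n ih =>
    have hb : ∀ i : Fin d, DepOn (bev p q τ v i : Set (Edge d k → I))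
        {e | v <:+ tgt e ∧ v.length < (tgt e).length} := fun i =>
      (depOn_bev p q τ v i).mono fun e he => by
        simp only [mem_ofPred_eq] at he ⊢
        rw [he]
        exact ⟨List.suffix_cons _ _, by simp⟩
    have hs : ∀ (i : Fin d) (τ' : ℕ → Bool), DepOn (Surv p q n τ' (i :: v) : Set (Edge d k → I))
        {e | v <:+ tgt e ∧ v.length < (tgt e).length} := fun i τ' =>
      (ih τ' (i :: v)).mono fun e he => by
        simp only [mem_ofPred_eq, List.length_cons] at he ⊢
        exact ⟨(List.suffix_cons _ _).trans he.1, by omega⟩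
    exact DepOn.iUnion fun i => ((hb i).inter (hs i _)).union ((hb i).compl.inter (hs i _))

/-- The event that there is no survival through the child `i :: v`. -/
def Afail (p q : ℝ) (n : ℕ) (τ : ℕ → Bool) (v : List (Fin d)) (i : Fin d) :
    Set (Edge d k → I) :=
  (bev p q τ v i ∩ (Surv p q n (consB true τ) (i :: v))ᶜ) ∪
    ((bev p q τ v i)ᶜ ∩ (Surv p q n (consB false τ) (i :: v))ᶜ)

lemma compl_Surv_succ (p q : ℝ) (n : ℕ) (τ : ℕ → Bool) (v : List (Fin d)) :
    (Surv p q (n + 1) τ v : Set (Edge d k → I))ᶜ = ⋂ i ∈ (Finset.univ : Finset (Fin d)),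
      Afail p q n τ v i := by
  ext ω
  simp only [Surv, Afail, mem_compl_iff, mem_iUnion, mem_union, mem_inter_iff, not_exists,
    mem_iInter, Finset.mem_univ, true_imp_iff]
  refine forall_congr' fun i => ?_
  tauto

lemma measurableSet_Afail (p q : ℝ) (n : ℕ) (τ : ℕ → Bool) (v : List (Fin d)) (i : Fin d) :
    MeasurableSet (Afail p q n τ v i : Set (Edge d k → I)) :=
  ((measurableSet_bev _ _ _ _ _).inter (measurableSet_Surv _ _ _ _ _).compl).union
    ((measurableSet_bev _ _ _ _ _).compl.inter (measurableSet_Surv _ _ _ _ _).compl)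

lemma depOn_Afail (p q : ℝ) (n : ℕ) (τ : ℕ → Bool) (v : List (Fin d)) (i : Fin d) :
    DepOn (Afail p q n τ v i : Set (Edge d k → I)) {e | (i :: v) <:+ tgt e} := by
  have hb : DepOn (bev p q τ v i : Set (Edge d k → I)) {e | (i :: v) <:+ tgt e} :=
    (depOn_bev p q τ v i).mono fun e he => by
      simp only [mem_ofPred_eq] at he ⊢
      rw [he]
  have hs : ∀ τ' : ℕ → Bool, DepOn (Surv p q n τ' (i :: v) : Set (Edge d k → I))
      {e | (i :: v) <:+ tgt e} := fun τ' => (depOn_Surv p q n τ' (i :: v)).mono fun e he => he.1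
  exact (hb.inter (hs _).compl).union (hb.compl.inter (hs _).compl)

lemma disjoint_suffix (v : List (Fin d)) :
    Pairwise fun i j : Fin d => Disjoint {e : Edge d k | (i :: v) <:+ tgt e}
      {e : Edge d k | (j :: v) <:+ tgt e} := by
  intro i j hij
  rw [Set.disjoint_left]
  intro e he he'
  simp only [mem_ofPred_eq] at he he'
  have h := List.suffix_of_suffix_length_le he he' (by simp)
  have h2 := h.eq_of_length (by simp)
  exact hij (List.cons.inj h2).1

lemma measure_Afail {p q : ℝ} (n : ℕ) (τ : ℕ → Bool) (v : List (Fin d)) (i : Fin d) :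
    (perc d k).real (Afail p q n τ v i) =
      (perc d k).real (bev p q τ v i) * (perc d k).real (Surv p q n (consB true τ) (i :: v))ᶜ +
      (1 - (perc d k).real (bev p q τ v i)) *
        (perc d k).real (Surv p q n (consB false τ) (i :: v))ᶜ := by
  have hdisj : Disjoint {e : Edge d k | tgt e = i :: v}
      {e : Edge d k | (i :: v) <:+ tgt e ∧ (i :: v).length < (tgt e).length} := by
    rw [Set.disjoint_left]
    intro e he he'
    simp only [mem_ofPred_eq] at he he'
    rw [he] at he'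
    exact lt_irrefl _ he'.2
  unfold Afail
  rw [measureReal_union ?_ ((measurableSet_bev _ _ _ _ _).compl.inter
    (measurableSet_Surv _ _ _ _ _).compl)]
  · rw [perc_inter (measurableSet_bev _ _ _ _ _) (measurableSet_Surv _ _ _ _ _).compl
      (depOn_bev _ _ _ _ _) (depOn_Surv _ _ _ _ _).compl hdisj,
      perc_inter (measurableSet_bev _ _ _ _ _).compl (measurableSet_Surv _ _ _ _ _).compl
      (depOn_bev _ _ _ _ _).compl (depOn_Surv _ _ _ _ _).compl hdisj,
      probReal_compl_eq_one_sub (measurableSet_bev _ _ _ _ _)]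
  · rw [Set.disjoint_left]
    rintro ω ⟨h1, -⟩ ⟨h2, -⟩
    exact h2 h1

/-- The elementary inequality behind the induction. -/
lemma pow_ineq {D : ℕ} {c y g H lam : ℝ} (hc : 0 ≤ c) (hg0 : 0 ≤ g)
    (hgH : g ≤ H) (hy0 : 0 ≤ y) (hyH : y ≤ H) (hcH : c * H ≤ 1) (hcl : c * lam * H ≤ lam - 1)
    (hlam : 0 ≤ lam) (h : lam * g ≤ D * y) : (1 - c * y) ^ D ≤ 1 - c * g := by
  have hcy0 : 0 ≤ c * y := mul_nonneg hc hy0
  have hcy1 : c * y ≤ 1 := (mul_le_mul_of_nonneg_left hyH hc).trans hcH
  have hcg1 : c * g ≤ 1 := (mul_le_mul_of_nonneg_left hgH hc).trans hcH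
  have h1 : (1 - c * y) ^ D * (1 + D * (c * y)) ≤ 1 := by
    have h2 : 1 + D * (c * y) ≤ (1 + c * y) ^ D := one_add_mul_le_pow (by linarith) D
    have h3 : 0 ≤ (1 - c * y) ^ D := pow_nonneg (by linarith) D
    calc (1 - c * y) ^ D * (1 + D * (c * y)) ≤ (1 - c * y) ^ D * (1 + c * y) ^ D :=
          mul_le_mul_of_nonneg_left h2 h3
      _ = ((1 - c * y) * (1 + c * y)) ^ D := (mul_pow _ _ _).symm
      _ ≤ 1 := pow_le_one₀ (mul_nonneg (by linarith) (by linarith)) (by nlinarith)
  have h2 : 1 ≤ (1 - c * g) * (1 + D * (c * y)) := by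
    have h3 : 1 ≤ lam * (1 - c * g) := by
      have : c * lam * g ≤ c * lam * H := mul_le_mul_of_nonneg_left hgH (mul_nonneg hc hlam)
      nlinarith
    have h4 : c * g ≤ (1 - c * g) * (c * (lam * g)) := by
      have : c * g * 1 ≤ c * g * (lam * (1 - c * g)) :=
        mul_le_mul_of_nonneg_left h3 (mul_nonneg hc hg0)
      nlinarith
    have h5 : (1 - c * g) * (c * (lam * g)) ≤ (1 - c * g) * (c * (D * y)) :=
      mul_le_mul_of_nonneg_left (mul_le_mul_of_nonneg_left h hc) (by linarith)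
    nlinarith
  have h3 : 0 < 1 + D * (c * y) := by positivity
  exact le_of_mul_le_mul_right (h1.trans h2) h3

/-- The positive part of the test function. -/
noncomputable def gf (d k : ℕ) (p q lam : ℝ) (τ : ℕ → Bool) : ℝ :=
  max (hf (k - 1) d p q lam (ind τ)) 0

lemma ac_nonneg {m : ℕ} {dd q lam : ℝ} (hd : 0 ≤ dd) (hq : 0 ≤ q) (hlam : 0 ≤ lam) (i : ℕ) :
    0 ≤ ac m dd q lam i := by
  rcases i with _ | i
  · exact zero_le_one
  · unfold ac; positivity

/-- Upper bound for the test function. -/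
noncomputable def Hc (d k : ℕ) (q lam : ℝ) : ℝ := ∑ i ∈ Finset.range (k - 1 + 1),
  ac (k - 1) d q lam i

lemma Hc_ge_one {q lam : ℝ} (hq : 0 ≤ q) (hlam : 0 ≤ lam) : 1 ≤ Hc d k q lam := by
  unfold Hc
  rw [Finset.sum_range_succ']
  have h1 : 0 ≤ ∑ i ∈ Finset.range (k - 1), ac (k - 1) d q lam (i + 1) :=
    Finset.sum_nonneg fun i _ => ac_nonneg (Nat.cast_nonneg d) hq hlam _
  have h2 : ac (k - 1) (d : ℝ) q lam 0 = 1 := rfl
  linarith

lemma gf_nonneg (p q lam : ℝ) (τ : ℕ → Bool) : 0 ≤ gf d k p q lam τ := le_max_right _ _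

lemma gf_le {p q lam : ℝ} (hd : 0 < d) (hp0 : 0 ≤ p) (hq : 0 ≤ q) (hlam : 0 ≤ lam) (τ : ℕ → Bool) :
    gf d k p q lam τ ≤ Hc d k q lam := by
  have hd' : (0 : ℝ) < d := by exact_mod_cast hd
  refine max_le ?_ (zero_le_one.trans (Hc_ge_one hq hlam))
  unfold hf Hc
  have h1 : ∑ i ∈ Finset.range (k - 1 + 1), ac (k - 1) d q lam i * ind τ i ≤
      ∑ i ∈ Finset.range (k - 1 + 1), ac (k - 1) d q lam i :=
    Finset.sum_le_sum fun i _ => mul_le_of_le_one_right
      (ac_nonneg (Nat.cast_nonneg d) hq hlam _) (ind_le_one _ _)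
  have h2 : 0 ≤ p * ∑ j ∈ Finset.range (k - 1 + 1), ind τ j * ∑ i ∈ Finset.range j,
      wc d i * ind τ i :=
    mul_nonneg hp0 (Finset.sum_nonneg fun j _ => mul_nonneg (ind_nonneg _ _)
      (Finset.sum_nonneg fun i _ => mul_nonneg (wc_nonneg hd' _) (ind_nonneg _ _)))
  linarith

/-- Main induction: lower bound for the survival probability. -/
lemma measure_Surv_compl_le {p q lam c : ℝ} (hd : 2 ≤ d) (hk : 2 ≤ k) (hp0 : 0 ≤ p)
    (hp : p * d ≤ 1 / 2) (hq0 : 0 ≤ q) (hq1 : q ≤ 1) (hq : p = 0 ∨ (d : ℝ) ^ k * q ≤ 1)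
    (hlam : 1 ≤ lam)
    (hS : lam ≤ d * p * (1 - p) + (d : ℝ) ^ k * q / lam ^ (k - 1)) (hc : 0 ≤ c)
    (hcH : c * Hc d k q lam ≤ 1) (hcl : c * lam * Hc d k q lam ≤ lam - 1)
    (n : ℕ) (τ : ℕ → Bool) (v : List (Fin d)) (hτ : ∀ j < k, τ j = true → j ≤ v.length) :
    (perc d k).real (Surv p q n τ v)ᶜ ≤ 1 - c * gf d k p q lam τ := by
  have hd2 : (2 : ℝ) ≤ d := by exact_mod_cast hd
  have hp1 : p ≤ 1 := by nlinarith
  have hlam0 : 0 ≤ lam := by linarith
  have hkk : k - 1 + 1 = k := by omega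
  induction n generalizing τ v with
  | zero =>
    by_cases h : ∃ j < k, τ j = true
    · have h1 : (Surv p q 0 τ v : Set (Edge d k → I))ᶜ = ∅ := by
        simp only [Surv, h]
        ext; simp
      rw [h1]
      simp only [measureReal_empty]
      have h2 : c * gf d k p q lam τ ≤ c * Hc d k q lam :=
        mul_le_mul_of_nonneg_left (gf_le (by omega) hp0 hq0 hlam0 τ) hc
      linarith
    · have h1 : gf d k p q lam τ = 0 := by
        unfold gf hf
        have h2 : ∀ i ∈ Finset.range (k - 1 + 1), ind τ i = 0 := by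
          intro i hi
          unfold ind
          rw [if_neg]
          intro h3
          exact h ⟨i, by rw [Finset.mem_range] at hi; omega, h3⟩
        rw [Finset.sum_eq_zero fun i hi => by rw [h2 i hi, mul_zero],
          Finset.sum_eq_zero fun i hi => by rw [h2 i hi, zero_mul]]
        simp
      rw [h1, mul_zero, sub_zero]
      exact measureReal_le_one
  | succ n ih =>
    rw [compl_Surv_succ]
    have hprod : (perc d k).real (⋂ i ∈ (Finset.univ : Finset (Fin d)), Afail p q n τ v i) =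
        ∏ i ∈ (Finset.univ : Finset (Fin d)), (perc d k).real (Afail p q n τ v i) :=
      measureReal_biInter_of_depOn (μ := fun _ : Edge d k => (volume : Measure I)) _
        (fun i => measurableSet_Afail p q n τ v i) (fun i => depOn_Afail p q n τ v i)
        (disjoint_suffix v)
    rw [hprod]
    set π := p * ind τ 0 + q * ind τ (k - 1) - p * q * ind τ 0 * ind τ (k - 1) with hπ
    set y := π * gf d k p q lam (consB true τ) + (1 - π) * gf d k p q lam (consB false τ) with hy
    have hbev : ∀ i : Fin d, (perc d k).real (bev p q τ v i) = π := fun i =>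
      measure_bev (by omega) hp0 hp1 hq0 hq1 hτ i
    have hπ0 : 0 ≤ π := by
      rw [← hbev ⟨0, by omega⟩]; exact measureReal_nonneg
    have hπ1 : π ≤ 1 := by
      rw [← hbev ⟨0, by omega⟩]; exact measureReal_le_one
    have hA : ∀ i : Fin d, (perc d k).real (Afail p q n τ v i) ≤ 1 - c * y := by
      intro i
      have hc1 : ∀ (b : Bool), ∀ j < k, consB b τ j = true → j ≤ (i :: v).length := by
        intro b j hj hb
        rcases j with _ | j
        · simp
        · have := hτ j (by omega) hb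
          simpa using this
      have h1 := ih (consB true τ) (i :: v) (hc1 true)
      have h2 := ih (consB false τ) (i :: v) (hc1 false)
      rw [measure_Afail, hbev]
      have h3 := mul_le_mul_of_nonneg_left h1 hπ0
      have h4 := mul_le_mul_of_nonneg_left h2 (sub_nonneg.2 hπ1)
      calc _ ≤ π * (1 - c * gf d k p q lam (consB true τ)) +
            (1 - π) * (1 - c * gf d k p q lam (consB false τ)) := add_le_add h3 h4
        _ = 1 - c * y := by rw [hy]; ring
    have hg1 := gf_nonneg (d := d) (k := k) p q lam (consB true τ)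
    have hg0 := gf_nonneg (d := d) (k := k) p q lam (consB false τ)
    have hg1' := gf_le (k := k) (show 0 < d by omega) hp0 hq0 hlam0 (consB true τ)
    have hg0' := gf_le (k := k) (show 0 < d by omega) hp0 hq0 hlam0 (consB false τ)
    have hy0 : 0 ≤ y := by
      have := mul_nonneg hπ0 hg1
      have := mul_nonneg (sub_nonneg.2 hπ1) hg0
      linarith
    have hyH : y ≤ Hc d k q lam := by
      have := mul_le_mul_of_nonneg_left hg1' hπ0
      have := mul_le_mul_of_nonneg_left hg0' (sub_nonneg.2 hπ1)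
      linarith
    have hkey : lam * gf d k p q lam τ ≤ d * y := by
      unfold gf
      rw [mul_max_of_nonneg _ _ hlam0, mul_zero]
      refine max_le ?_ (mul_nonneg (Nat.cast_nonneg d) hy0)
      have h1 := hf_key (m := k - 1) (by omega) (dd := d) (p := p) (q := q) (lam := lam) hd2 hp0 hp
        hq0 (by rw [hkk]; exact hq) hlam (by rw [hkk]; exact hS) (x := ind τ) (ind_nonneg τ)
        (ind_le_one τ)
      refine h1.trans (mul_le_mul_of_nonneg_left ?_ (Nat.cast_nonneg d))
      rw [← hπ, ← hf_affine, hy]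
      refine add_le_add (mul_le_mul_of_nonneg_left ?_ hπ0)
        (mul_le_mul_of_nonneg_left ?_ (sub_nonneg.2 hπ1))
      · rw [← ind_consB_true]; exact le_max_left _ _
      · rw [← ind_consB_false]; exact le_max_left _ _
    calc ∏ i : Fin d, (perc d k).real (Afail p q n τ v i) ≤ ∏ _i : Fin d, (1 - c * y) :=
          Finset.prod_le_prod (fun i _ => measureReal_nonneg) fun i _ => hA i
      _ = (1 - c * y) ^ d := by simp
      _ ≤ 1 - c * gf d k p q lam τ :=
          pow_ineq hc (gf_nonneg _ _ _ _) (gf_le (by omega) hp0 hq0 hlam0 τ) hy0 hyH hcH hcl hlam0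
            hkey

/-- Soundness of the survival event. -/
lemma Surv_sound (hk : 0 < k) {p q : ℝ} {n : ℕ} {τ : ℕ → Bool} {v : List (Fin d)}
    {ω : Edge d k → I} (h : ω ∈ Surv p q n τ v)
    (hτ : ∀ j < k, τ j = true → j ≤ v.length ∧ v.drop j ∈ cluster p q ω) :
    ∃ w ∈ cluster p q ω, v.length + n < w.length + k := by
  induction n generalizing τ v with
  | zero =>
    obtain ⟨j, hj, hj'⟩ := h
    obtain ⟨h1, h2⟩ := hτ j hj hj'
    exact ⟨_, h2, by rw [List.length_drop]; omega⟩
  | succ n ih =>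
    simp only [Surv, mem_iUnion] at h
    obtain ⟨i, ⟨h1, h2⟩ | ⟨-, h2⟩⟩ := h
    · obtain ⟨w, hw, hw'⟩ := ih h2 (fun j hj hj' => by
        rcases j with _ | j
        · refine ⟨by simp, ?_⟩
          simp only [List.drop_zero]
          rcases h1 with ⟨h3, h4⟩ | ⟨h3, h4⟩
          · exact mem_cluster_of_short (hτ 0 hk h3).2 h4
          · simp only [longInto, mem_iUnion] at h4
            obtain ⟨u, x, hx, h5⟩ := h4
            have h6 := hτ (k - 1) (by omega) h3
            have h7 : u = v.drop (k - 1) := by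
              have h8 : (i :: v).drop k = u := by
                rw [hx, List.drop_append_of_le_length (by simp), List.drop_eq_nil_of_le (by simp),
                  List.nil_append]
              rw [← h8]
              obtain ⟨k', rfl⟩ : ∃ k', k = k' + 1 := ⟨k - 1, by omega⟩
              simp
            rw [hx]
            refine mem_cluster_of_long ?_ h5
            rw [h7]; exact h6.2
        · have := hτ j (by omega) hj'
          exact ⟨by simpa using this.1, by simpa using this.2⟩)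
      exact ⟨w, hw, by simp at hw'; omega⟩
    · obtain ⟨w, hw, hw'⟩ := ih h2 (fun j hj hj' => by
        rcases j with _ | j
        · simp [consB] at hj'
        · have := hτ j (by omega) hj'
          exact ⟨by simpa using this.1, by simpa using this.2⟩)
      exact ⟨w, hw, by simp at hw'; omega⟩

/-- The pattern with only the current vertex reached. -/
def e0 : ℕ → Bool
  | 0 => true
  | _ + 1 => false

lemma gf_e0 (p q lam : ℝ) : gf d k p q lam e0 = 1 := by
  unfold gf hf
  have h1 : ∀ i, ind e0 (i + 1) = 0 := fun i => by simp [ind, e0]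
  rw [Finset.sum_range_succ', Finset.sum_range_succ' (fun j => ind e0 j * _)]
  simp only [h1, mul_zero, zero_mul, Finset.sum_const_zero, zero_add, Finset.range_zero,
    Finset.sum_empty, sub_zero]
  simp [ac, ind, e0]

/-- Above the upper curve there is percolation. -/
lemma theta_pos {p q : ℝ} (hd : 2 ≤ d) (hk : 2 ≤ k) (hp0 : 0 ≤ p)
    (hp : p * d ≤ 1 / 2) (hq0 : 0 ≤ q) (hq1 : q ≤ 1) (hq : p = 0 ∨ (d : ℝ) ^ k * q ≤ 1)
    (hS : 1 < d * p * (1 - p) + (d : ℝ) ^ k * q) : 0 < theta d k p q := by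
  -- choose `lam`
  obtain ⟨lam, hlam1, hS'⟩ : ∃ lam : ℝ, 1 < lam ∧
      lam ≤ d * p * (1 - p) + (d : ℝ) ^ k * q / lam ^ (k - 1) := by
    have hcont : ContinuousAt (fun l : ℝ => d * p * (1 - p) + (d : ℝ) ^ k * q / l ^ (k - 1) - l)
        1 := by
      refine ContinuousAt.sub (ContinuousAt.add continuousAt_const
        (ContinuousAt.div continuousAt_const (by fun_prop) (by simp))) continuousAt_id
    have hpos : 0 < (d * p * (1 - p) + (d : ℝ) ^ k * q / (1 : ℝ) ^ (k - 1) - 1) := by
      rw [one_pow, div_one]; linarith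
    have hev := hcont.eventually (lt_mem_nhds hpos)
    have hev3 : ∀ᶠ l : ℝ in nhdsWithin (1 : ℝ) (Ioi (1 : ℝ)), 1 < l ∧
        0 < d * p * (1 - p) + (d : ℝ) ^ k * q / l ^ (k - 1) - l := by
      filter_upwards [nhdsWithin_le_nhds hev, self_mem_nhdsWithin] with l h1 h2
      exact ⟨h2, h1⟩
    obtain ⟨l, h1, h2⟩ := hev3.exists
    exact ⟨l, h1, by linarith⟩
  have hlam0 : 0 < lam := by linarith
  set H := Hc d k q lam with hH
  have hH1 : 1 ≤ H := Hc_ge_one hq0 hlam0.le
  obtain ⟨c, hc, hcH, hcl⟩ : ∃ c : ℝ, 0 < c ∧ c * H ≤ 1 ∧ c * lam * H ≤ lam - 1 := by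
    refine ⟨(lam - 1) / (lam * H), div_pos (by linarith) (by positivity), ?_, ?_⟩
    · rw [div_mul_eq_mul_div, div_le_one (by positivity)]
      nlinarith
    · apply le_of_eq
      field_simp
  have hsurv : ∀ n, c ≤ (perc d k).real (Surv p q n e0 []) := by
    intro n
    have h1 := measure_Surv_compl_le hd hk hp0 hp hq0 hq1 hq hlam1.le hS' hc.le hcH hcl n e0 []
      (by
        intro j _ hj
        rcases j with _ | j
        · simp
        · simp [e0] at hj)
    rw [gf_e0, mul_one, probReal_compl_eq_one_sub (measurableSet_Surv _ _ _ _ _)] at h1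
    linarith
  -- the events `E n`
  let E : ℕ → Set (Edge d k → I) := fun n => ⋃ (w : List (Fin d)) (_ : n ≤ w.length), reach p q w
  have hEm : ∀ n, MeasurableSet (E n) := fun n => MeasurableSet.iUnion fun w =>
    MeasurableSet.iUnion fun _ => measurableSet_reach (by omega) p q w
  have hEanti : Antitone E := by
    intro a b hab ω hω
    simp only [E, mem_iUnion] at hω ⊢
    obtain ⟨w, hw, h⟩ := hω
    exact ⟨w, hab.trans hw, h⟩
  have hEc : ∀ n, ENNReal.ofReal c ≤ perc d k (E n) := by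
    intro n
    have h1 : Surv p q (n + k) e0 [] ⊆ E n := by
      intro ω hω
      obtain ⟨w, hw, hw'⟩ := Surv_sound (by omega) hω (by
        intro j _ hj
        rcases j with _ | j
        · exact ⟨by simp, nil_mem_cluster _ _ _⟩
        · simp [e0] at hj)
      simp only [E, mem_iUnion]
      exact ⟨w, by simp at hw'; omega, hw⟩
    have h2 := (hsurv (n + k)).trans (measureReal_mono h1 (measure_ne_top _ _))
    rw [Measure.real] at h2
    exact (ENNReal.ofReal_le_iff_le_toReal (measure_ne_top _ _)).2 h2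
  have hE : ENNReal.ofReal c ≤ perc d k (⋂ n, E n) := by
    rw [hEanti.measure_iInter (fun n => (hEm n).nullMeasurableSet) ⟨0, measure_ne_top _ _⟩]
    exact le_iInf hEc
  have hsub : (⋂ n, E n) ⊆ {ω : Edge d k → I | (cluster p q ω).Infinite} := by
    intro ω hω hfin
    have hfin' : (cluster p q ω).Finite := hfin
    obtain ⟨M, hM⟩ := (hfin'.image List.length).bddAbove
    have h1 := mem_iInter.1 hω (M + 1)
    simp only [E, mem_iUnion] at h1
    obtain ⟨w, hw, h⟩ := h1
    have := hM (mem_image_of_mem List.length (show w ∈ cluster p q ω from h))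
    omega
  have h1 : c ≤ (perc d k).real (⋂ n, E n) :=
    (ENNReal.ofReal_le_iff_le_toReal (measure_ne_top _ _)).1 hE
  unfold theta
  exact lt_of_lt_of_le hc (h1.trans (measureReal_mono hsub (measure_ne_top _ _)))

/-! ## The critical curve -/

lemma set_nonempty {p : ℝ} (hd : 2 ≤ d) (hk : 2 ≤ k) (hp0 : 0 ≤ p) (hp : p * d ≤ 1 / 2) :
    ∀ r, (1 - d * p + d * p ^ 2) / (d : ℝ) ^ k < r → ∃ q, q < r ∧
      q ∈ {q | 0 < q ∧ q < 1 ∧ 0 < theta d k p q} := by
  intro r hr
  have hd2 : (2 : ℝ) ≤ d := by exact_mod_cast hd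
  have hdk : (2 : ℝ) ≤ (d : ℝ) ^ k := by
    calc (2 : ℝ) ≤ d := hd2
      _ = (d : ℝ) ^ 1 := (pow_one _).symm
      _ ≤ (d : ℝ) ^ k := pow_le_pow_right₀ (by linarith) (by omega)
  have hA0 : 0 < 1 - d * p + d * p ^ 2 := by nlinarith [sq_nonneg p]
  rcases hp0.eq_or_lt with rfl | hp0'
  · have hA : (1 - d * (0 : ℝ) + d * 0 ^ 2) / (d : ℝ) ^ k = 1 / (d : ℝ) ^ k := by norm_num
    rw [hA] at hr
    obtain ⟨q, hq1, hq2⟩ := exists_between (lt_min hr (show 1 / (d : ℝ) ^ k < 1 by
      rw [div_lt_one (by linarith)]; linarith))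
    have hq0 : 0 < q := lt_trans (by positivity) hq1
    have hqr := lt_of_lt_of_le hq2 (min_le_left _ _)
    have hq1' := lt_of_lt_of_le hq2 (min_le_right _ _)
    refine ⟨q, hqr, hq0, hq1', theta_pos hd hk le_rfl (by norm_num) hq0.le hq1'.le
      (Or.inl rfl) ?_⟩
    rw [div_lt_iff₀ (by linarith)] at hq1
    nlinarith
  · have hlt : (1 - d * p + d * p ^ 2) / (d : ℝ) ^ k < 1 / (d : ℝ) ^ k := by
      apply div_lt_div_of_pos_right _ (by linarith)
      have h1 : p < 1 := by nlinarith
      have h2 : 0 < d * p * (1 - p) := by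
        have : (0 : ℝ) < d := by linarith
        have : 0 < 1 - p := by linarith
        positivity
      nlinarith
    obtain ⟨q, hq1, hq2⟩ := exists_between (lt_min hr hlt)
    have hq0 : 0 < q := lt_trans (by positivity) hq1
    have hqr := lt_of_lt_of_le hq2 (min_le_left _ _)
    have hq1' := lt_of_lt_of_le hq2 (min_le_right _ _)
    have hq3 : (d : ℝ) ^ k * q ≤ 1 := by
      rw [lt_div_iff₀ (by linarith)] at hq1'
      linarith
    have hq4 : q < 1 := by nlinarith
    refine ⟨q, hqr, hq0, hq4, theta_pos hd hk hp0 hp hq0.le hq4.le (Or.inr hq3) ?_⟩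
    rw [div_lt_iff₀ (by linarith)] at hq1
    nlinarith

lemma qc_le {p : ℝ} (hd : 2 ≤ d) (hk : 2 ≤ k) (hp0 : 0 ≤ p) (hp : p * d ≤ 1 / 2) :
    qc d k p ≤ (1 - d * p + d * p ^ 2) / (d : ℝ) ^ k := by
  refine le_of_forall_gt fun r hr => ?_
  obtain ⟨q, hq, hq'⟩ := set_nonempty hd hk hp0 hp r hr
  exact lt_of_le_of_lt (csInf_le ⟨0, fun q hq => hq.1.le⟩ hq') hq

lemma le_qc {p : ℝ} (hd : 2 ≤ d) (hk : 2 ≤ k) (hp0 : 0 ≤ p) (hp : p * d ≤ 1 / 2) :
    (1 - d * p) / ((d : ℝ) ^ k * (1 - p ^ k)) ≤ qc d k p := by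
  have hd2 : (2 : ℝ) ≤ d := by exact_mod_cast hd
  have hp1 : p < 1 := by nlinarith
  have hpk : 0 < 1 - p ^ k := sub_pos.2 (pow_lt_one₀ hp0 hp1 (by omega))
  have hdk : (0 : ℝ) < (d : ℝ) ^ k := by positivity
  obtain ⟨q₀, -, hq₀⟩ := set_nonempty hd hk hp0 hp _ (lt_add_one _)
  refine le_csInf ⟨q₀, hq₀⟩ fun q hq => ?_
  by_contra hcon
  rw [not_le, lt_div_iff₀ (by positivity)] at hcon
  have := theta_eq_zero (d := d) (k := k) (p := p) (q := q) (by omega) (by omega) hp0 hp1.le
    hq.1.le hq.2.1.le (by nlinarith)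
  exact absurd hq.2.2 (by rw [this]; exact lt_irrefl _)

/-- For all `d ≥ 2`, `k ≥ 2` and every `δ ∈ (0,1]` the critical curve is not concave on
`[0,δ]`. -/
theorem result (d k : ℕ) (hd : 2 ≤ d) (hk : 2 ≤ k) (δ : ℝ) (hδ0 : 0 < δ) (_hδ1 : δ ≤ 1) :
    ¬ ConcaveOn ℝ (Set.Icc 0 δ) (qc d k) := by
  intro hconc
  have hd2 : (2 : ℝ) ≤ d := by exact_mod_cast hd
  have hdk : (0 : ℝ) < (d : ℝ) ^ k := by positivity
  -- the right end point
  set y : ℝ := min δ (1 / (2 * d)) with hy
  have hy0 : 0 < y := lt_min hδ0 (by positivity)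
  have hyδ : y ≤ δ := min_le_left _ _
  have hyd : y * d ≤ 1 / 2 := by
    have : y ≤ 1 / (2 * d) := min_le_right _ _
    calc y * d ≤ 1 / (2 * d) * d := by gcongr
      _ = 1 / 2 := by field_simp
  have hy1 : y < 1 := by nlinarith
  have hyk0 : 0 < y ^ k := by positivity
  have hyk1 : y ^ k < 1 := pow_lt_one₀ hy0.le hy1 (by omega)
  set L := (1 - d * y) / (1 - y ^ k) with hL
  have hL1 : 1 - d * y < L := by
    rw [hL, lt_div_iff₀ (by linarith)]
    have : 0 < (1 - d * y) * y ^ k := mul_pos (by linarith) hyk0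
    nlinarith
  have hLq : L / (d : ℝ) ^ k ≤ qc d k y := by
    have := le_qc hd hk hy0.le hyd
    rwa [mul_comm ((d : ℝ) ^ k), ← div_div] at this
  have h0q : 1 / (d : ℝ) ^ k ≤ qc d k 0 := by
    have := le_qc (d := d) (k := k) hd hk le_rfl (by norm_num)
    have h0 : (0 : ℝ) ^ k = 0 := zero_pow (by omega)
    rw [h0] at this
    simpa using this
  -- concavity on `[0,y]` at `x = s * y`
  have key : ∀ s : ℝ, 0 < s → s < 1 → s * (L - (1 - d * y)) ≤ d * (s * y) ^ 2 := by
    intro s hs0 hs1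
    have hsy : 0 ≤ s * y := by positivity
    have hsyd : s * y * d ≤ 1 / 2 := by
      have : s * (y * d) ≤ 1 * (1 / 2) := mul_le_mul hs1.le hyd (by positivity) (by norm_num)
      linarith
    have h1 := hconc.2 (left_mem_Icc.2 hδ0.le) (⟨hy0.le, hyδ⟩ : y ∈ Set.Icc 0 δ)
      (sub_nonneg.2 hs1.le) hs0.le (by ring)
    simp only [smul_eq_mul, mul_zero, zero_add] at h1
    have h2 := h1.trans (qc_le hd hk hsy hsyd)
    rw [le_div_iff₀ hdk] at h2
    have h3 : 1 ≤ qc d k 0 * (d : ℝ) ^ k := by rwa [div_le_iff₀ hdk] at h0q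
    have h4 : L ≤ qc d k y * (d : ℝ) ^ k := by rwa [div_le_iff₀ hdk] at hLq
    have h5 : (1 - s) * 1 ≤ (1 - s) * (qc d k 0 * (d : ℝ) ^ k) :=
      mul_le_mul_of_nonneg_left h3 (by linarith)
    have h6 : s * L ≤ s * (qc d k y * (d : ℝ) ^ k) := mul_le_mul_of_nonneg_left h4 hs0.le
    nlinarith
  -- choose `s` small
  set η := L - (1 - d * y) with hη
  have hη0 : 0 < η := by rw [hη]; linarith
  set s : ℝ := min (1 / 2) (η / (2 * (d * y ^ 2))) with hs
  have hdy : 0 < (d : ℝ) * y ^ 2 := by positivity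
  have hs0 : 0 < s := lt_min (by norm_num) (by positivity)
  have hs1 : s < 1 := lt_of_le_of_lt (min_le_left _ _) (by norm_num)
  have h1 := key s hs0 hs1
  have h2 : s * (d * y ^ 2) ≤ η / 2 := by
    have : s ≤ η / (2 * (d * y ^ 2)) := min_le_right _ _
    calc s * (d * y ^ 2) ≤ η / (2 * (d * y ^ 2)) * (d * y ^ 2) := by gcongr
      _ = η / 2 := by field_simp
  have h3 : d * (s * y) ^ 2 = s * (s * (d * y ^ 2)) := by ring
  rw [h3] at h1
  have h4 : s * (s * (d * y ^ 2)) ≤ s * (η / 2) := mul_le_mul_of_nonneg_left h2 hs0.le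
  have h5 : 0 < s * η := mul_pos hs0 hη0
  nlinarith

end Pool.Agent.Results.MP_ea7c0e_pr.Main
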